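import Pool.Agent.helper91.ADV.SpecX

set_option autoImplicit false

/-! Row adv:TFX (MP_069684_lc): the characterisation of P/Poly by predictors with the optimal advantage. -/

namespace Pool.Agent.ADV

open Finset Pool.Agent.helper38.Neg Pool.Agent.helper55.NT Pool.Agent.LNB

theorem TFX_12 (hUPX : UPX_stmt) (u r : ℕ → ℕ) (A : Lang) (h : InPPoly A) :
    PolyAdv (Few u r) (fun n => optx (u n) (r n) n) A := by
  obtain ⟨p, hp⟩ := h
  refine ⟨(4 * Polynomial.X + 4) * (2 * (2 * Polynomial.X + 2) ^ 3 + 2 * p + 12) + Polynomial.X + 1, ?_⟩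
  intro n D hD
  obtain ⟨s, hs, C, o, hC⟩ := hp n
  obtain ⟨s', hs', C', o', hF, hA⟩ := hUPX n s (u n) (r n) C o D hD
  have hAn : (fun x => C.val x o = true) = A n := by
    funext x
    exact propext (hC x)
  rw [hAn] at hA
  refine ⟨s', ?_, C', o', hF, hA⟩
  refine hs'.trans ?_
  simp only [Polynomial.eval_add, Polynomial.eval_mul, Polynomial.eval_pow, Polynomial.eval_X, Polynomial.eval_ofNat,
    Polynomial.eval_one]
  have h1 : 2 * s ≤ 2 * p.eval n := Nat.mul_le_mul_left 2 hs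
  have h2 : (4 * n + 4) * (2 * (2 * n + 2) ^ 3 + 2 * s + 12) ≤ (4 * n + 4) * (2 * (2 * n + 2) ^ 3 + 2 * p.eval n + 12) :=
    Nat.mul_le_mul_left _ (by omega)
  omega

theorem TFX_opt (u r n : ℕ) : 1 / (2 * (n : ℝ) + 2) ≤ optx u r n := by
  have h0 : (0 : ℝ) ≤ (n : ℝ) := Nat.cast_nonneg n
  have hm0 : (0 : ℝ) ≤ ((min u n : ℕ) : ℝ) := Nat.cast_nonneg _
  have hm : ((min u n : ℕ) : ℝ) ≤ (n : ℝ) := by exact_mod_cast min_le_right u n
  unfold optx
  apply le_min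
  · apply one_div_le_one_div_of_le
    · norm_num
    · linarith
  · have h1 : (2 : ℝ) ^ 1 ≤ 2 ^ (r + 1) := pow_le_pow_right₀ (by norm_num) (by omega)
    have h2 : (1 : ℝ) ≤ 2 ^ (r + 1) - 1 := by linarith
    calc 1 / (2 * (n : ℝ) + 2) ≤ 1 / (2 * (((min u n : ℕ) : ℝ) + 1)) := by
          apply one_div_le_one_div_of_le
          · linarith
          · linarith
      _ ≤ (2 ^ (r + 1) - 1) / (2 * (((min u n : ℕ) : ℝ) + 1)) :=
          div_le_div_of_nonneg_right h2 (by linarith)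

theorem TFX_23 (u r : ℕ → ℕ) (A : Lang) (h : PolyAdv (Few u r) (fun n => optx (u n) (r n) n) A) :
    ∃ q : Polynomial ℕ, PolyAdv Any (fun n => 1 / (((q.eval n : ℕ) : ℝ) + 2)) A := by
  obtain ⟨p, hp⟩ := h
  refine ⟨2 * Polynomial.X, p, ?_⟩
  intro n D hD
  obtain ⟨s, hs, C, o, -, hA⟩ := hp n D hD
  refine ⟨s, hs, C, o, trivial, le_trans ?_ hA⟩
  have h5 : (((2 * Polynomial.X : Polynomial ℕ).eval n : ℕ) : ℝ) = 2 * (n : ℝ) := by
    simp only [Polynomial.eval_mul, Polynomial.eval_X, Polynomial.eval_ofNat]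
    push_cast
    ring
  show 1 / ((((2 * Polynomial.X : Polynomial ℕ).eval n : ℕ) : ℝ) + 2) ≤ optx (u n) (r n) n
  rw [h5]
  exact TFX_opt (u n) (r n) n

theorem TFX_31 (hBPP : BPP_stmt) (A : Lang)
    (h : ∃ q : Polynomial ℕ, PolyAdv Any (fun n => 1 / (((q.eval n : ℕ) : ℝ) + 2)) A) : InPPoly A := by
  obtain ⟨q, p, hp⟩ := h
  refine hBPP Any (p + q) A ?_
  intro n D hD
  obtain ⟨s, hs, C, o, -, hA⟩ := hp n D hD
  have e : (p + q).eval n = p.eval n + q.eval n := Polynomial.eval_add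
  refine ⟨s, ?_, C, o, trivial, le_trans ?_ hA⟩
  · show s ≤ (p + q).eval n
    rw [e]
    exact le_trans hs (Nat.le_add_right _ _)
  · show 1 / ((((p + q).eval n : ℕ) : ℝ) + 2) ≤ 1 / (((q.eval n : ℕ) : ℝ) + 2)
    rw [e]
    have h0 : (0 : ℝ) ≤ ((q.eval n : ℕ) : ℝ) := Nat.cast_nonneg _
    have h1 : (0 : ℝ) ≤ ((p.eval n : ℕ) : ℝ) := Nat.cast_nonneg _
    apply one_div_le_one_div_of_le
    · linarith
    · push_cast
      linarith

theorem TFX (h1 : UPX_stmt) (h2 : BPP_stmt) : TFX_stmt := by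
  intro u r A
  tfae_have 1 → 2 := TFX_12 h1 u r A
  tfae_have 2 → 3 := TFX_23 u r A
  tfae_have 3 → 1 := TFX_31 h2 A
  tfae_finish

end Pool.Agent.ADV
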